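import Pool.Agent.Helper36.CV.StmtsD

set_option autoImplicit false

/-!
MP_e5aeaf_mp, module D3: bound for the weighted phase sum by induction.
-/

namespace Pool.Agent.Helper36.CV

noncomputable section

theorem d3_sin (y : ℝ) : 2 * dz y ≤ |Real.sin (Real.pi * y)| := by
  have h1 : Real.pi * y = Real.pi * (y - round y) + (round y : ℤ) * Real.pi := by ring
  rw [h1, Real.sin_add_int_mul_pi, abs_mul, abs_neg_one_zpow, one_mul]
  have h2 : |Real.pi * (y - round y)| ≤ Real.pi / 2 := by
    rw [abs_mul, abs_of_pos Real.pi_pos]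
    have := abs_sub_round y
    nlinarith [Real.pi_pos]
  have h3 := Real.mul_abs_le_abs_sin h2
  rw [abs_mul, abs_of_pos Real.pi_pos] at h3
  have h4 : 2 / Real.pi * (Real.pi * |y - round y|) = 2 * |y - round y| := by
    field_simp
  rw [h4] at h3
  exact h3

theorem d3_low (x y e s : ℝ) (p : ℤ) (hs : s = 1 ∨ s = -1) (h : |y - p - s * x| ≤ e) :
    2 * (dz x - e) ≤ |Real.sin (Real.pi * y)| := by
  refine le_trans ?_ (d3_sin y)
  have h1 : dz x ≤ dz y + e := by
    rcases hs with rfl | rfl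
    · have h2 : |x - round x| ≤ |x - ((round y - p : ℤ) : ℝ)| := round_le x _
      have h3 : x - ((round y - p : ℤ) : ℝ) = (y - round y) - (y - p - 1 * x) := by
        push_cast
        ring
      rw [h3] at h2
      have h4 := abs_sub (y - round y) (y - p - 1 * x)
      unfold dz
      linarith
    · have h2 : |x - round x| ≤ |x - ((p - round y : ℤ) : ℝ)| := round_le x _
      have h3 : x - ((p - round y : ℤ) : ℝ) = (y - p - (-1) * x) - (y - round y)  := by
        push_cast
        ring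
      rw [h3] at h2
      have h4 := abs_sub (y - p - (-1) * x) (y - round y)
      unfold dz
      linarith
  linarith

theorem d3_s5 : (2236 : ℝ) / 1000 ≤ Real.sqrt 5 ∧ Real.sqrt 5 ≤ 2237 / 1000 := by
  constructor
  · exact Real.le_sqrt_of_sq_le (by norm_num)
  · rw [Real.sqrt_le_left (by norm_num)]
    norm_num

theorem d3_sq5 : Real.sqrt 5 * Real.sqrt 5 = 5 := Real.mul_self_sqrt (by norm_num)

theorem d3_gam : (618 : ℝ) / 1000 ≤ gam ∧ gam ≤ 6181 / 10000 ∧ 0 < gam ∧ gam < 1 := by
  have h1 : (22360 : ℝ) / 10000 ≤ Real.sqrt 5 := Real.le_sqrt_of_sq_le (by norm_num)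
  have h2 : Real.sqrt 5 ≤ 22362 / 10000 := by
    rw [Real.sqrt_le_left (by norm_num)]
    norm_num
  unfold gam
  refine ⟨?_, ?_, ?_, ?_⟩ <;> linarith

theorem d3_gp : gam * phi = 1 := by
  unfold gam phi
  have := d3_sq5
  linear_combination this / 4

theorem d3_phi : phi = 1 + gam := by
  unfold gam phi
  ring

theorem d3_ng (n : ℕ) : (-gam) ^ n = (-1) ^ n * gam ^ n := by
  rw [← mul_pow, neg_one_mul]

/-- bound for `a` at the lower levels -/
theorem d3_a (hD1 : ST_D1) (l E t : ℝ) (a b : ℤ) (n : ℕ) (ht : 0 < t)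
    (hD : ∀ m, |D l m E| ≤ 101 / 100 * t) (h : |aa l a b n E| ≤ 6 / 10 * t) :
    ∀ k ≤ n, |aa l a b (n - k) E| ≤ 6 / 10 * t := by
  intro k
  induction k with
  | zero => intro _; exact h
  | succ k ih =>
    intro hk
    have h1 := ih (by omega)
    obtain ⟨h2, -⟩ := hD1 l E a b (n - (k + 1))
    have h3 : n - (k + 1) + 1 = n - k := by omega
    rw [h3] at h2
    have h4 : aa l a b (n - (k + 1)) E =
        gam * (aa l a b (n - k) E - D l (n - (k + 1)) E / Real.pi) := by
      rw [h2]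
      have := d3_gp
      linear_combination (-(aa l a b (n - (k + 1)) E)) * this
    rw [h4, abs_mul, abs_of_pos d3_gam.2.2.1]
    have h5 := abs_sub (aa l a b (n - k) E) (D l (n - (k + 1)) E / Real.pi)
    have h6 : |D l (n - (k + 1)) E / Real.pi| ≤ 101 / 300 * t := by
      rw [abs_div, abs_of_pos Real.pi_pos, div_le_iff₀ Real.pi_pos]
      have h7 := hD (n - (k + 1))
      have h8 : 101 / 300 * t * 3 ≤ 101 / 300 * t * Real.pi :=
        mul_le_mul_of_nonneg_left Real.pi_gt_three.le (by positivity)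
      linarith
    have h9 := d3_gam
    have h10 : |aa l a b (n - k) E - D l (n - (k + 1)) E / Real.pi| ≤ 6 / 10 * t + 101 / 300 * t := by
      linarith
    calc gam * |aa l a b (n - k) E - D l (n - (k + 1)) E / Real.pi|
        ≤ (6181 / 10000) * (6 / 10 * t + 101 / 300 * t) := by
          refine mul_le_mul h9.2.1 h10 (abs_nonneg _) (by norm_num)
      _ ≤ 6 / 10 * t := by linarith

/-- the three levels near `m + 1` -/
theorem d3_three (hD1 : ST_D1) (l E t : ℝ) (a b : ℤ) (m : ℕ) (ht : 0 < t)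
    (hD : |D l m E| ≤ 101 / 100 * t) (ha : |aa l a b m E| ≤ 6 / 10 * t)
    (ha' : |aa l a b (m + 1) E| ≤ 6 / 10 * t)
    (hW : |WS l m E| ≤ 9 * Real.sqrt 5 * |(b : ℝ)| * t ^ 2)
    (hnear : t * (|(b : ℝ)| * gam ^ (m + 1)) < 1 / 20) (u : ℕ) (hu : u = m ∨ u = m + 1 ∨ u = m + 2) :
    |rr l a b u E + (-gam) ^ u * b| ≤ 11 / 10 * t := by
  obtain ⟨-, e2, e3, e4, e5⟩ := hD1 l E a b m
  obtain ⟨-, -, -, e6, -⟩ := hD1 l E a b (m + 1)
  obtain ⟨s1, s2⟩ := d3_s5
  have ss := d3_sq5
  obtain ⟨g1, g2, g3, g4⟩ := d3_gam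
  have hphi := d3_phi
  have hs5 : Real.sqrt 5 = phi + gam := by
    unfold phi gam
    ring
  have sp : 0 < Real.sqrt 5 := by linarith
  have hst : 2236 / 1000 * t ≤ Real.sqrt 5 * t := mul_le_mul_of_nonneg_right s1 ht.le
  set q : ℝ := (-gam) ^ m with hq
  set g : ℝ := gam ^ m with hg
  have hgp : 0 < g := pow_pos g3 m
  have hg1 : g ≤ 1 := pow_le_one₀ g3.le g4.le
  have hqg : |q| = g := by
    rw [hq, d3_ng, abs_mul, abs_pow, abs_neg, abs_one, one_pow, one_mul, abs_of_pos hgp]
  set W := WS l m E with hWd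
  set A := aa l a b m E with hA
  have hb0 : 0 ≤ |(b : ℝ)| := abs_nonneg _
  have hn1 : gam * (t * (|(b : ℝ)| * g)) < 1 / 20 := by
    rw [pow_succ] at hnear
    calc gam * (t * (|(b : ℝ)| * g)) = t * (|(b : ℝ)| * (gam ^ m * gam)) := by rw [hg]; ring
      _ < 1 / 20 := hnear
  have hx0 : 0 ≤ t * (|(b : ℝ)| * g) := by positivity
  have hqW : |q * W| ≤ 9 * Real.sqrt 5 * (t * (|(b : ℝ)| * g)) * t := by
    rw [abs_mul, hqg]
    calc g * |W| ≤ g * (9 * Real.sqrt 5 * |(b : ℝ)| * t ^ 2) := mul_le_mul_of_nonneg_left hW hgp.le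
      _ = 9 * Real.sqrt 5 * (t * (|(b : ℝ)| * g)) * t := by ring
  set x := t * (|(b : ℝ)| * g) with hx
  have hgoal : ∀ r : ℝ, |Real.sqrt 5 * r| ≤ Real.sqrt 5 * (11 / 10 * t) → |r| ≤ 11 / 10 * t := by
    intro r hr
    rw [abs_mul, abs_of_pos sp] at hr
    exact le_of_mul_le_mul_left hr sp
  rcases hu with rfl | rfl | rfl
  · -- level m
    rcases Nat.eq_zero_or_pos u with h0 | h0
    · subst h0
      have hW0 : WS l 0 E = 0 := by
        unfold WS
        simp
      have h1 : Real.sqrt 5 * (rr l a b 0 E + (-gam) ^ 0 * b) = 0 := by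
        rw [mul_add, e3, e5, hWd, hW0, hq, hg]
        simp
      have h2 := (mul_eq_zero.1 h1).resolve_left sp.ne'
      rw [h2, abs_zero]
      positivity
    · refine hgoal _ ?_
      have h1 : Real.sqrt 5 * (rr l a b u E + (-gam) ^ u * b) = A - A * (q * g) + q * W := by
        rw [mul_add, e3, e5]
        ring
      rw [h1]
      have hgg : g ≤ gam := by
        rw [hg]
        calc gam ^ u ≤ gam ^ 1 := pow_le_pow_of_le_one g3.le g4.le h0
          _ = gam := pow_one _
      have h2 : |A * (q * g)| ≤ (6 / 10 * t) * (6181 / 10000 * (6181 / 10000)) := by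
        rw [abs_mul, abs_mul, hqg, abs_of_pos hgp]
        refine mul_le_mul ha ?_ (by positivity) (by positivity)
        exact mul_le_mul (by linarith) (by linarith) hgp.le (by norm_num)
      have h3 : |A - A * (q * g) + q * W| ≤ |A| + |A * (q * g)| + |q * W| :=
        (abs_add_le _ _).trans (by linarith [abs_sub A (A * (q * g))])
      have h4' : (618 / 1000) * x ≤ 1 / 20 :=
        (mul_le_mul_of_nonneg_right g1 hx0).trans hn1.le
      have h5 : 9 * Real.sqrt 5 * x * t ≤ Real.sqrt 5 * (9 * (1 / 20 * (1000 / 618)) * t) := by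
        have : 9 * Real.sqrt 5 * x * t = Real.sqrt 5 * (9 * x * t) := by ring
        rw [this]
        refine mul_le_mul_of_nonneg_left ?_ sp.le
        refine mul_le_mul_of_nonneg_right ?_ ht.le
        linarith
      have h6 : 6 / 10 * t + (6 / 10 * t) * (6181 / 10000 * (6181 / 10000)) ≤
          Real.sqrt 5 * (37087 / 100000 * t) := by
        linarith
      linarith
  · -- level m + 1
    refine hgoal _ ?_
    have h1 : Real.sqrt 5 * (rr l a b (m + 1) E + (-gam) ^ (m + 1) * b) =
        phi * A + gam * (A * (q * g)) - gam * (q * W) := by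
      rw [mul_add, e4, e5, pow_succ, ← hq]
      ring
    rw [h1]
    have hpp : 0 < phi := by linarith
    have h2 : |phi * A| ≤ phi * (6 / 10 * t) := by
      rw [abs_mul, abs_of_pos hpp]
      exact mul_le_mul_of_nonneg_left ha hpp.le
    have h3 : |gam * (A * (q * g))| ≤ gam * (6 / 10 * t) := by
      rw [abs_mul, abs_of_pos g3, abs_mul, abs_mul, hqg, abs_of_pos hgp]
      refine mul_le_mul_of_nonneg_left ?_ g3.le
      calc |A| * (g * g) ≤ (6 / 10 * t) * 1 :=
            mul_le_mul ha (mul_le_one₀ hg1 hgp.le hg1) (by positivity) (by positivity)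
        _ = 6 / 10 * t := mul_one _
    have h4 : |gam * (q * W)| ≤ Real.sqrt 5 * (9 / 20 * t) := by
      rw [abs_mul, abs_of_pos g3]
      calc gam * |q * W| ≤ gam * (9 * Real.sqrt 5 * x * t) := mul_le_mul_of_nonneg_left hqW g3.le
        _ = Real.sqrt 5 * (9 * (gam * x) * t) := by ring
        _ ≤ Real.sqrt 5 * (9 / 20 * t) := by
          refine mul_le_mul_of_nonneg_left ?_ sp.le
          refine mul_le_mul_of_nonneg_right ?_ ht.le
          linarith
    have h5 : |phi * A + gam * (A * (q * g)) - gam * (q * W)| ≤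
        |phi * A| + |gam * (A * (q * g))| + |gam * (q * W)| :=
      (abs_sub _ _).trans (by linarith [abs_add_le (phi * A) (gam * (A * (q * g)))])
    have h6 : phi * (6 / 10 * t) + gam * (6 / 10 * t) = Real.sqrt 5 * (6 / 10 * t) := by
      rw [hs5]
      ring
    linarith
  · -- level m + 2
    refine hgoal _ ?_
    have h1 : Real.sqrt 5 * (rr l a b (m + 2) E + (-gam) ^ (m + 2) * b) =
        phi * aa l a b (m + 1) E + gam * (D l m E / Real.pi) - gam * (gam * (A * (q * g))) +
          gam * (gam * (q * W)) := by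
      have h2 : m + 2 = m + 1 + 1 := rfl
      rw [mul_add, h2, e6, e2, e5, pow_succ, pow_succ, ← hq]
      ring
    rw [h1]
    have hpp : 0 < phi := by linarith
    have h2 : |phi * aa l a b (m + 1) E| ≤ (16181 / 10000) * (6 / 10 * t) := by
      rw [abs_mul, abs_of_pos hpp]
      exact mul_le_mul (by linarith) ha' (abs_nonneg _) (by norm_num)
    have h3 : |gam * (D l m E / Real.pi)| ≤ (6181 / 10000) * (101 / 300 * t) := by
      rw [abs_mul, abs_of_pos g3]
      refine mul_le_mul g2 ?_ (abs_nonneg _) (by norm_num)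
      rw [abs_div, abs_of_pos Real.pi_pos, div_le_iff₀ Real.pi_pos]
      have h7 : 101 / 300 * t * 3 ≤ 101 / 300 * t * Real.pi :=
        mul_le_mul_of_nonneg_left Real.pi_gt_three.le (by positivity)
      linarith
    have h4 : |gam * (gam * (A * (q * g)))| ≤ (6181 / 10000) * ((6181 / 10000) * (6 / 10 * t)) := by
      rw [abs_mul, abs_of_pos g3, abs_mul, abs_of_pos g3, abs_mul, abs_mul, hqg, abs_of_pos hgp]
      have h7 : |A| * (g * g) ≤ 6 / 10 * t := by
        calc |A| * (g * g) ≤ (6 / 10 * t) * 1 :=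
              mul_le_mul ha (mul_le_one₀ hg1 hgp.le hg1) (by positivity) (by positivity)
          _ = 6 / 10 * t := mul_one _
      refine mul_le_mul g2 ?_ (by positivity) (by norm_num)
      exact mul_le_mul g2 h7 (by positivity) (by norm_num)
    have h5 : |gam * (gam * (q * W))| ≤ Real.sqrt 5 * (9 / 20 * t) := by
      rw [abs_mul, abs_of_pos g3, abs_mul, abs_of_pos g3]
      have h8 : gam * |q * W| ≤ Real.sqrt 5 * (9 / 20 * t) := by
        calc gam * |q * W| ≤ gam * (9 * Real.sqrt 5 * x * t) := mul_le_mul_of_nonneg_left hqW g3.le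
          _ = Real.sqrt 5 * (9 * (gam * x) * t) := by ring
          _ ≤ Real.sqrt 5 * (9 / 20 * t) := by
            refine mul_le_mul_of_nonneg_left ?_ sp.le
            refine mul_le_mul_of_nonneg_right ?_ ht.le
            linarith
      have h9 : 0 ≤ Real.sqrt 5 * (9 / 20 * t) := by positivity
      calc gam * (gam * |q * W|) ≤ gam * (Real.sqrt 5 * (9 / 20 * t)) :=
            mul_le_mul_of_nonneg_left h8 g3.le
        _ ≤ 1 * (Real.sqrt 5 * (9 / 20 * t)) := mul_le_mul_of_nonneg_right g4.le h9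
        _ = Real.sqrt 5 * (9 / 20 * t) := one_mul _
    have h6 : |phi * aa l a b (m + 1) E + gam * (D l m E / Real.pi) - gam * (gam * (A * (q * g))) +
          gam * (gam * (q * W))| ≤ |phi * aa l a b (m + 1) E| + |gam * (D l m E / Real.pi)| +
          |gam * (gam * (A * (q * g)))| + |gam * (gam * (q * W))| := by
      refine (abs_add_le _ _).trans ?_
      have h10 := abs_sub (phi * aa l a b (m + 1) E + gam * (D l m E / Real.pi))
        (gam * (gam * (A * (q * g))))
      have h11 := abs_add_le (phi * aa l a b (m + 1) E) (gam * (D l m E / Real.pi))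
      linarith
    linarith

/-- the phase sum in terms of the weights of the summation lemma -/
theorem d3_ws (l E : ℝ) (b : ℤ) (hb : b ≠ 0) (n : ℕ) :
    |WS l n E| ≤ |(b : ℝ)| / Real.pi *
      ∑ j ∈ Finset.Icc 1 n, (1 + gam ^ (2 * j)) * |D l (j - 1) E| / (|(b : ℝ)| * gam ^ j) := by
  have hb' : 0 < |(b : ℝ)| := abs_pos.2 (by exact_mod_cast hb)
  have hgp := d3_gp
  obtain ⟨g1, g2, g3, g4⟩ := d3_gam
  have h1 : ∑ j ∈ Finset.Icc 1 n, (1 + gam ^ (2 * j)) * |D l (j - 1) E| / (|(b : ℝ)| * gam ^ j) =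
      ∑ i ∈ Finset.range n, (1 + gam ^ (2 * (i + 1))) * |D l i E| / (|(b : ℝ)| * gam ^ (i + 1)) := by
    have h0 := Finset.sum_Ico_add' (fun j => (1 + gam ^ (2 * j)) * |D l (j - 1) E| /
      (|(b : ℝ)| * gam ^ j)) 0 n 1
    rw [Finset.range_eq_Ico]
    have h00 : Finset.Icc 1 n = Finset.Ico (0 + 1) (n + 1) := by
      ext j
      simp only [Finset.mem_Icc, Finset.mem_Ico]
      omega
    rw [h00, ← h0]
    rfl
  rw [h1]
  unfold WS
  rw [abs_mul, abs_of_pos (by positivity : (0 : ℝ) < 1 / Real.pi)]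
  have h2 : |(b : ℝ)| / Real.pi * ∑ i ∈ Finset.range n,
      (1 + gam ^ (2 * (i + 1))) * |D l i E| / (|(b : ℝ)| * gam ^ (i + 1)) =
      1 / Real.pi * ∑ i ∈ Finset.range n, (gam ^ (i + 1) + phi ^ (i + 1)) * |D l i E| := by
    rw [Finset.mul_sum, Finset.mul_sum]
    refine Finset.sum_congr rfl fun i _ => ?_
    have h3 : gam ^ (i + 1) * phi ^ (i + 1) = 1 := by
      rw [← mul_pow, hgp, one_pow]
    have h4 : gam ^ (i + 1) ≠ 0 := (pow_pos g3 _).ne'
    have h5 : phi ^ (i + 1) = 1 / gam ^ (i + 1) := by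
      rw [eq_div_iff h4, mul_comm]
      exact h3
    have h6 : gam ^ (2 * (i + 1)) = gam ^ (i + 1) * gam ^ (i + 1) := by
      rw [two_mul, pow_add]
    rw [h5, h6]
    field_simp
    ring
  rw [h2]
  refine mul_le_mul_of_nonneg_left ?_ (by positivity)
  refine (Finset.abs_sum_le_sum_abs _ _).trans (Finset.sum_le_sum fun i _ => ?_)
  rw [abs_mul]
  refine mul_le_mul_of_nonneg_right ?_ (abs_nonneg _)
  refine (abs_sub _ _).trans ?_
  have hpp : 0 < phi := by
    rw [d3_phi]
    linarith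
  rw [abs_of_pos (pow_pos g3 _), abs_pow, abs_neg, abs_of_pos hpp]

theorem st_D3 (hD1 : ST_D1) (hD2 : ST_D2) (hD3s : ST_D3s) (hT6 : ST_T6) : ST_D3 := by
  obtain ⟨t0, ht0, hs⟩ := hD3s
  refine ⟨min (1 / 100) (t0 ^ 2), lt_min (by norm_num) (by positivity), ?_⟩
  intro l E a b n hl hl0 hb hgn ha
  have hl1 : |l| ≤ 1 / 100 := hl0.trans (min_le_left _ _)
  have hl2 : |l| ≤ t0 ^ 2 := hl0.trans (min_le_right _ _)
  set t := Real.sqrt |l| with htd
  have ht : 0 < t := Real.sqrt_pos.2 hl
  have htt : t ^ 2 = |l| := Real.sq_sqrt hl.le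
  have htt0 : t ≤ t0 := by
    rw [htd, Real.sqrt_le_left ht0.le]
    exact hl2
  obtain ⟨g1, g2, g3, g4⟩ := d3_gam
  obtain ⟨s1, s2⟩ := d3_s5
  have hDb : ∀ m, |D l m E| ≤ 101 / 100 * t := fun m => (((hT6 l hl hl1 m).2.2 E).2.1)
  have haa := d3_a hD1 l E t a b n ht hDb ha
  have haa' : ∀ u ≤ n, |aa l a b u E| ≤ 6 / 10 * t := by
    intro u hu
    have := haa (n - u) (Nat.sub_le _ _)
    rwa [Nat.sub_sub_self hu] at this
  have hb' : 0 < |(b : ℝ)| := abs_pos.2 (by exact_mod_cast hb)
  intro j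
  induction j using Nat.strong_induction_on with
  | _ j ih =>
  intro hj
  have hsum := hs t b j (fun j => |D l (j - 1) E|) (fun u => |Real.sin (Th l u E)|) ht htt0 hb ?_
    (fun j _ _ => ⟨abs_nonneg _, hDb _⟩) ?_
  · obtain ⟨h1, h2⟩ := hsum
    have h3 := d3_ws l E b hb j
    have hpi := Real.pi_gt_d6
    have hpi' : 0 < Real.pi := Real.pi_pos
    constructor
    · refine h3.trans ?_
      have h4 : |(b : ℝ)| / Real.pi * ∑ j ∈ Finset.Icc 1 j,
          (1 + gam ^ (2 * j)) * |D l (j - 1) E| / (|(b : ℝ)| * gam ^ j) ≤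
          |(b : ℝ)| / Real.pi * (62 * t ^ 2) :=
        mul_le_mul_of_nonneg_left h1 (by positivity)
      refine h4.trans ?_
      rw [htt]
      have h5 : 62 ≤ 9 * Real.sqrt 5 * Real.pi := by
        have h6 : 9 * (2236 / 1000) * 3.141592 ≤ 9 * Real.sqrt 5 * Real.pi :=
          mul_le_mul (by linarith) hpi.le (by norm_num) (by positivity)
        norm_num at h6
        linarith
      rw [div_mul_eq_mul_div, div_le_iff₀ hpi']
      calc |(b : ℝ)| * (62 * |l|) = 62 * (|(b : ℝ)| * |l|) := by ring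
        _ ≤ 9 * Real.sqrt 5 * Real.pi * (|(b : ℝ)| * |l|) :=
          mul_le_mul_of_nonneg_right h5 (by positivity)
        _ = 9 * Real.sqrt 5 * |(b : ℝ)| * |l| * Real.pi := by ring
    · intro hb10
      refine h3.trans ?_
      have h4 : |(b : ℝ)| / Real.pi * ∑ j ∈ Finset.Icc 1 j,
          (1 + gam ^ (2 * j)) * |D l (j - 1) E| / (|(b : ℝ)| * gam ^ j) ≤
          |(b : ℝ)| / Real.pi * (14 * t ^ 2) :=
        mul_le_mul_of_nonneg_left (h2 hb10) (by positivity)
      refine h4.trans ?_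
      rw [htt]
      have h5 : 14 ≤ 2 * Real.sqrt 5 * Real.pi := by
        have h6 : 2 * (2236 / 1000) * 3.141592 ≤ 2 * Real.sqrt 5 * Real.pi :=
          mul_le_mul (by linarith) hpi.le (by norm_num) (by positivity)
        norm_num at h6
        linarith
      rw [div_mul_eq_mul_div, div_le_iff₀ hpi']
      calc |(b : ℝ)| * (14 * |l|) = 14 * (|(b : ℝ)| * |l|) := by ring
        _ ≤ 2 * Real.sqrt 5 * Real.pi * (|(b : ℝ)| * |l|) :=
          mul_le_mul_of_nonneg_right h5 (by positivity)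
        _ = 2 * Real.sqrt 5 * |(b : ℝ)| * |l| * Real.pi := by ring
  · refine hgn.trans ?_
    exact mul_le_mul_of_nonneg_left (pow_le_pow_of_le_one g3.le g4.le hj) hb'.le
  · intro k hk1 hkj hnear u v w huvw
    obtain ⟨m, rfl⟩ : ∃ m, k = m + 1 := ⟨k - 1, by omega⟩
    have h2 := hD2 l hl hl1 m E u v w
    have h3 : ({u, v, w} : Finset ℕ) = {m, m + 1, m + 2} := by
      rw [huvw]
      rfl
    obtain ⟨h4, h5⟩ := h2 h3
    have hl4 : l ^ 2 = t ^ 4 := by
      rw [← sq_abs l, ← htt]
      ring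
    have hm1 : m + 1 - 1 = m := by omega
    simp only [hm1]
    refine ⟨?_, ?_, abs_nonneg _, ?_⟩
    · rw [htt]
      exact h4
    · rw [← hl4]
      exact h5
    · have hu : u = m ∨ u = m + 1 ∨ u = m + 2 := by
        have : u ∈ ({m, m + 1, m + 2} : Finset ℕ) := by
          rw [← h3]
          simp
        simpa using this
      have hW : |WS l m E| ≤ 9 * Real.sqrt 5 * |(b : ℝ)| * t ^ 2 := by
        rw [htt]
        exact (ih m (by omega) (by omega)).1
      have h6 := d3_three hD1 l E t a b m ht (hDb m) (haa' m (by omega)) (haa' (m + 1) (by omega))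
        hW hnear u hu
      have h7 := d3_low (gam ^ u * (b : ℝ)) (Th l u E / Real.pi) (11 / 10 * t) (-(-1) ^ u)
        (pp a b u) (by
          rcases neg_one_pow_eq_or ℝ u with h8 | h8
          · right; rw [h8]
          · left; rw [h8, neg_neg]) (by
          have h8 : Th l u E / Real.pi - (pp a b u : ℝ) - -(-1) ^ u * (gam ^ u * (b : ℝ)) =
              rr l a b u E + (-gam) ^ u * b := by
            rw [d3_ng]
            unfold rr
            ring
          rw [h8]
          exact h6)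
      have h8 : Real.pi * (Th l u E / Real.pi) = Th l u E := by
        field_simp
      rw [h8] at h7
      exact h7

end

end Pool.Agent.Helper36.CV
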