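import Pool.Agent.Helper36.CV.StmtsK

/-!
# K10: no exact distance 1
-/

set_option autoImplicit false

namespace Pool.Agent.Helper36.CV

noncomputable section

theorem k10_X0 (l x : ℝ) : X l 0 x = 1 := by simp [X]

theorem k10_X1 (l x : ℝ) : X l 1 x = x / 2 := by simp [X]

theorem k10_X2 (l x : ℝ) : X l 2 x = (x - l) / 2 := by simp [X]

/-- a point near the middle root -/
theorem k10_mid {C l x : ℝ} (hC : 1 ≤ C) (hl : 200 * C ≤ l) (hx : |x - l| ≤ 1 / 4)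
    (h2 : 3 / 4 * l ≤ x → |X l 2 x| ≤ 1 ∧ |X l 1 x - l / 2| ≤ 3)
    (h3 : ∀ (k : ℕ) (s : ℝ), (s = 1 ∨ s = -1) → |X l k x| ≤ 1 → |X l (k + 1) x - s * l / 2| ≤ 3 →
      |X l (k + 2) x| ≤ 1 →
    |X l (k + 2) x| ≤ 1 / 2 + C / l ∧
    ((∃ r : ℝ, (r = 1 ∨ r = -1) ∧ |X l (k + 2) x - r / 2| ≤ C / l ∧ |X l (k + 4) x| ≤ 1 ∧
        |X l (k + 3) x - r * s * l / 2| ≤ 3 ∧
        |X l (k + 2) x - r / 2 - (X l (k + 4) x + r * X l k x) / (4 * r * X l (k + 1) x)| ≤ C / l ^ 2) ∨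
     (|X l (k + 2) x - X l k x / (2 * X l (k + 1) x)| ≤ C / l ^ 2 ∧ |X l (k + 3) x| ≤ C / l ∧
        |X l (k + 4) x + s * l / 2| ≤ 3 ∧ |X l (k + 5) x| ≤ 1))) :
    |(x - l) / 2 - 1 / x| ≤ C / l ^ 2 := by
  have hl0 : 0 < l := by linarith
  obtain ⟨a1, a2⟩ := abs_le.1 hx
  obtain ⟨g1, g2⟩ := h2 (by linarith)
  have g3 := h3 0 1 (Or.inl rfl) (by rw [k10_X0]; norm_num) (by rw [zero_add, one_mul]; exact g2)
    (by rw [zero_add]; exact g1)
  simp only [zero_add] at g3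
  rw [k10_X0, k10_X1, k10_X2] at g3
  obtain ⟨-, g4 | g4⟩ := g3
  · exfalso
    obtain ⟨r, hr, g5, -⟩ := g4
    have g6 : C / l ≤ 1 / 200 := by
      rw [div_le_div_iff₀ hl0 (by norm_num)]
      linarith
    obtain ⟨g7, g8⟩ := abs_le.1 g5
    rcases hr with rfl | rfl <;> linarith
  · have g5 := g4.1
    have e : (1 : ℝ) / (2 * (x / 2)) = 1 / x := by
      congr 1
      ring
    rw [e] at g5
    exact g5

/-- a point near an outer root -/
theorem k10_out {C l x r : ℝ} (hC : 1 ≤ C) (hl : 200 * C ≤ l) (hr : r = 1 ∨ r = -1)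
    (hx : |x - (l + r)| ≤ 1 / 4)
    (h2 : 3 / 4 * l ≤ x → |X l 2 x| ≤ 1 ∧ |X l 1 x - l / 2| ≤ 3)
    (h3 : ∀ (k : ℕ) (s : ℝ), (s = 1 ∨ s = -1) → |X l k x| ≤ 1 → |X l (k + 1) x - s * l / 2| ≤ 3 →
      |X l (k + 2) x| ≤ 1 →
    |X l (k + 2) x| ≤ 1 / 2 + C / l ∧
    ((∃ r : ℝ, (r = 1 ∨ r = -1) ∧ |X l (k + 2) x - r / 2| ≤ C / l ∧ |X l (k + 4) x| ≤ 1 ∧
        |X l (k + 3) x - r * s * l / 2| ≤ 3 ∧
        |X l (k + 2) x - r / 2 - (X l (k + 4) x + r * X l k x) / (4 * r * X l (k + 1) x)| ≤ C / l ^ 2) ∨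
     (|X l (k + 2) x - X l k x / (2 * X l (k + 1) x)| ≤ C / l ^ 2 ∧ |X l (k + 3) x| ≤ C / l ∧
        |X l (k + 4) x + s * l / 2| ≤ 3 ∧ |X l (k + 5) x| ≤ 1))) :
    ∃ a : ℝ, |a| ≤ 1 / 2 + C / l ∧ |(x - l) / 2 - r / 2 - (a + r) / (2 * r * x)| ≤ C / l ^ 2 := by
  have hl0 : 0 < l := by linarith
  obtain ⟨a1, a2⟩ := abs_le.1 hx
  have hr1 : -1 ≤ r ∧ r ≤ 1 := by rcases hr with rfl | rfl <;> norm_num
  have hx0 : 3 / 4 * l ≤ x := by linarith [hr1.1]
  have hxp : 0 < x := by linarith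
  obtain ⟨g1, g2⟩ := h2 hx0
  have g3 := h3 0 1 (Or.inl rfl) (by rw [k10_X0]; norm_num) (by rw [zero_add, one_mul]; exact g2)
    (by rw [zero_add]; exact g1)
  simp only [zero_add] at g3
  have g6 : C / l ≤ 1 / 200 := by
    rw [div_le_div_iff₀ hl0 (by norm_num)]
    linarith
  obtain ⟨-, g4 | g4⟩ := g3
  · obtain ⟨r', hr', g5, g7, g8, g9⟩ := g4
    rw [k10_X2] at g5
    have e : r' = r := by
      obtain ⟨b1, b2⟩ := abs_le.1 g5
      rcases hr with rfl | rfl <;> rcases hr' with rfl | rfl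
      · rfl
      · exfalso
        linarith
      · exfalso
        linarith
      · rfl
    subst e
    have g10 := h3 2 r' hr' g1 (by
      have e1 : r' * l / 2 = r' * 1 * l / 2 := by ring
      rw [e1]
      exact g8) g7
    refine ⟨X l 4 x, g10.1, ?_⟩
    rw [k10_X0, k10_X1, k10_X2] at g9
    have e1 : (X l 4 x + r' * 1) / (4 * r' * (x / 2)) = (X l 4 x + r') / (2 * r' * x) := by
      congr 1 <;> ring
    rw [e1] at g9
    exact g9
  · exfalso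
    have g5 := g4.1
    rw [k10_X0, k10_X1, k10_X2] at g5
    have e : (1 : ℝ) / (2 * (x / 2)) = 1 / x := by
      congr 1
      ring
    rw [e] at g5
    have b0 : 1 / x ≤ 1 / 100 := by
      rw [div_le_div_iff₀ hxp (by norm_num)]
      linarith
    have b1 : 0 < 1 / x := by positivity
    have b2 : C / l ^ 2 ≤ 1 / 200 := by
      rw [div_le_div_iff₀ (by positivity) (by norm_num)]
      nlinarith
    obtain ⟨c1, c2⟩ := abs_le.1 g5
    rcases hr with rfl | rfl <;> linarith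

/-- K10: no exact distance 1 -/
theorem st_K10 (h0 : ST_K0) : ST_K10 := by
  obtain ⟨C, L1, hC, hL1, h⟩ := h0
  refine ⟨L1 + 200 * C, by linarith, fun l hl x hx y hy => ?_⟩
  have hl1 : L1 ≤ l := by linarith
  have hlC : 200 * C ≤ l := by linarith
  have hl0 : 0 < l := by linarith
  obtain ⟨-, x2, x3⟩ := h l hl1 x hx
  obtain ⟨-, y2, y3⟩ := h l hl1 y hy
  have g6 : C / l ≤ 1 / 200 := by
    rw [div_le_div_iff₀ hl0 (by norm_num)]
    linarith
  have b2 : C / l ^ 2 ≤ 1 / 200 / l := by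
    rw [pow_two, ← div_div]
    exact div_le_div_of_nonneg_right g6 hl0.le
  constructor
  · intro hx1 hy1 hxy
    obtain ⟨a, ha, h1⟩ := k10_out hC hlC (Or.inl rfl) hx1 x2 x3
    have h2 := k10_mid hC hlC hy1 y2 y3
    obtain ⟨p1, p2⟩ := abs_le.1 h1
    obtain ⟨q1, q2⟩ := abs_le.1 h2
    obtain ⟨u1, u2⟩ := abs_le.1 hx1
    obtain ⟨v1, v2⟩ := abs_le.1 hy1
    obtain ⟨w1, w2⟩ := abs_le.1 ha
    have hxp : 0 < x := by linarith
    have hyp : 0 < y := by linarith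
    have k1 : 9 / 10 / l ≤ 1 / y := by
      rw [div_le_div_iff₀ hl0 hyp]
      linarith
    have k2 : (a + 1) / (2 * 1 * x) ≤ 17 / 20 / l := by
      rw [div_le_div_iff₀ (by positivity) hl0]
      nlinarith
    have k3 : 9 / 10 / l - 17 / 20 / l = 1 / 20 / l := by ring
    have k4 : 1 / 200 / l + 1 / 200 / l = 1 / 100 / l := by ring
    have k5 : 1 / 100 / l < 1 / 20 / l := div_lt_div_of_pos_right (by norm_num) hl0
    linarith
  · intro hx1 hy1 hxy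
    have h2 := k10_mid hC hlC hx1 x2 x3
    obtain ⟨a, ha, h1⟩ := k10_out hC hlC (Or.inr rfl) (r := -1) (by
      have e1 : l + -1 = l - 1 := by ring
      rw [e1]
      exact hy1) y2 y3
    obtain ⟨p1, p2⟩ := abs_le.1 h1
    obtain ⟨q1, q2⟩ := abs_le.1 h2
    obtain ⟨u1, u2⟩ := abs_le.1 hx1
    obtain ⟨v1, v2⟩ := abs_le.1 hy1
    obtain ⟨w1, w2⟩ := abs_le.1 ha
    have hxp : 0 < x := by linarith
    have hyp : 0 < y := by linarith
    have k1 : 9 / 10 / l ≤ 1 / x := by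
      rw [div_le_div_iff₀ hl0 hxp]
      linarith
    have e2 : (a + -1) / (2 * -1 * y) = (1 - a) / (2 * y) := by
      rw [div_eq_div_iff (by linarith) (by linarith)]
      ring
    rw [e2] at p1 p2
    have k2 : (1 - a) / (2 * y) ≤ 17 / 20 / l := by
      rw [div_le_div_iff₀ (by positivity) hl0]
      nlinarith
    have k3 : 9 / 10 / l - 17 / 20 / l = 1 / 20 / l := by ring
    have k4 : 1 / 200 / l + 1 / 200 / l = 1 / 100 / l := by ring
    have k5 : 1 / 100 / l < 1 / 20 / l := div_lt_div_of_pos_right (by norm_num) hl0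
    linarith

end

end Pool.Agent.Helper36.CV
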